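import Pool.Agent.W745.Cartan

/-! MP_f2742c_an: the group `SL(2,ℝ)`, normalised Haar measure, balls. -/

open MeasureTheory Set Filter Topology Real
open scoped ENNReal NNReal

namespace Pool.Agent.W314.BA

/-- the group `SL(2,ℝ)` -/
abbrev G := Pool.Agent.W745.SL2

open Pool.Agent.W745 (NN FR HM kk dg)

noncomputable section

instance instMSG : MeasurableSpace G := borel G
instance instBSG : BorelSpace G := ⟨rfl⟩

/-- cosh of the (hyperbolic) distance by which `g` moves the base point -/
def hh (g : G) : ℝ := NN g / 2

/-- the closed ball of all `g` with `hh g ≤ x` (radius `r`, `x = cosh r`) -/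
def Bx (x : ℝ) : Set G := {g | hh g ≤ x}

theorem exists_hm : ∃ m : Measure G, m.IsHaarMeasure ∧ HM m (1/2) := by
  obtain ⟨κ, h⟩ := Pool.Agent.W745.hm_of_haar (Measure.haar : Measure G)
  have hk := h.pos
  have hne : ENNReal.ofReal (1/(2*κ)) ≠ 0 := by
    rw [Ne, ENNReal.ofReal_eq_zero, not_le]; positivity
  have hsm : ∀ {f : G → G}, MeasurePreserving f (Measure.haar : Measure G) Measure.haar →
      MeasurePreserving f (ENNReal.ofReal (1/(2*κ)) • (Measure.haar : Measure G))
        (ENNReal.ofReal (1/(2*κ)) • (Measure.haar : Measure G)) := by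
    intro f hf
    refine ⟨hf.measurable, ?_⟩
    rw [Measure.map_smul, hf.map_eq]
  refine ⟨ENNReal.ofReal (1/(2*κ)) • (Measure.haar : Measure G), ?_, by norm_num, ?_, ?_, ?_, ?_⟩
  · exact Measure.IsHaarMeasure.smul _ hne ENNReal.ofReal_ne_top
  · exact fun g => hsm (h.left g)
  · exact fun g => hsm (h.right g)
  · exact hsm h.inv
  · intro R hR
    rw [Measure.smul_apply, h.vol R hR, smul_eq_mul, ← ENNReal.ofReal_mul (by positivity)]
    congr 1
    field_simp

/-- Haar measure, normalised so that the ball `Bx x` has measure `x - 1` -/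
def hm : Measure G := Classical.choose exists_hm

instance hm_haar : hm.IsHaarMeasure := (Classical.choose_spec exists_hm).1

theorem hm_HM : HM hm (1/2) := (Classical.choose_spec exists_hm).2

/-- the uniform probability measure on the ball `Bx x` (for `x > 1`) -/
def bm (x : ℝ) : Measure G := ENNReal.ofReal ((x - 1)⁻¹) • hm.restrict (Bx x)

end

end Pool.Agent.W314.BA
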