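import Pool.Agent.W314.BA.Base

/-! MP_f2742c_an: basic facts on `hh`, balls and Haar measure. -/

open MeasureTheory Set Filter Topology Real
open scoped ENNReal NNReal

namespace Pool.Agent.W314.BA

open Pool.Agent.W745 (NN FR HM kk dg)

noncomputable section

lemma hh_eq (g : G) : hh g = (g.1 0 0 ^ 2 + g.1 0 1 ^ 2 + g.1 1 0 ^ 2 + g.1 1 1 ^ 2) / 2 := rfl

lemma hh_continuous : Continuous hh := Pool.Agent.W745.NN_continuous.div_const 2

lemma hh_measurable : Measurable hh := hh_continuous.measurable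

lemma one_le_hh (g : G) : 1 ≤ hh g := by
  unfold hh
  linarith [Pool.Agent.W745.NN_ge_two g]

lemma hh_inv (g : G) : hh g⁻¹ = hh g := by unfold hh; rw [Pool.Agent.W745.NN_inv]
lemma hh_kk_mul (θ : ℝ) (g : G) : hh (kk θ * g) = hh g := by
  unfold hh; rw [Pool.Agent.W745.NN_kk_mul]
lemma hh_mul_kk (g : G) (θ : ℝ) : hh (g * kk θ) = hh g := by
  unfold hh; rw [Pool.Agent.W745.NN_mul_kk]
lemma hh_one : hh 1 = 1 := by rw [hh_eq]; norm_num
lemma hh_kk (θ : ℝ) : hh (kk θ) = 1 := by rw [← mul_one (kk θ), hh_kk_mul, hh_one]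
lemma hh_dg (s : ℝ) : hh (dg s) = Real.cosh (2 * s) := by
  unfold hh; rw [Pool.Agent.W745.NN_dg, Real.cosh_eq]

lemma cartan (g : G) : ∃ θ₁ s θ₂ : ℝ, 0 ≤ s ∧ g = kk θ₁ * dg s * kk θ₂ :=
  Pool.Agent.W745.cartan g

lemma Bx_meas (x : ℝ) : MeasurableSet (Bx x) := measurableSet_le hh_measurable measurable_const

lemma Bx_mono {x y : ℝ} (h : x ≤ y) : Bx x ⊆ Bx y := fun _ hg => le_trans hg h

lemma inv_mem_Bx {x : ℝ} {g : G} : g⁻¹ ∈ Bx x ↔ g ∈ Bx x := by
  unfold Bx; simp [hh_inv]

/-- the addition formula -/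
lemma hh_mul_le' (g h : G) : hh (g * h) ≤ (hh g + √(hh g ^ 2 - 1)) * hh h := by
  obtain ⟨θ₁, s, θ₂, hs, rfl⟩ := cartan g
  have h1 : hh (kk θ₁ * dg s * kk θ₂ * h) = hh (dg s * (kk θ₂ * h)) := by
    rw [mul_assoc (kk θ₁ * dg s), mul_assoc (kk θ₁), hh_kk_mul]
  have h2 : hh (kk θ₁ * dg s * kk θ₂) = Real.cosh (2 * s) := by
    rw [hh_mul_kk, hh_kk_mul, hh_dg]
  have h3 : hh h = hh (kk θ₂ * h) := (hh_kk_mul _ _).symm
  rw [h1, h2, h3]
  set u := kk θ₂ * h
  have h4 : Real.cosh (2 * s) + √(Real.cosh (2 * s) ^ 2 - 1) = Real.exp (2 * s) := by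
    have : Real.cosh (2*s)^2 - 1 = Real.sinh (2*s)^2 := by
      rw [Real.cosh_sq]; ring
    rw [this, Real.sqrt_sq (Real.sinh_nonneg_iff.2 (by positivity)), Real.cosh_add_sinh]
  rw [h4]
  unfold hh
  have h5 := Pool.Agent.W745.NN_dg_mul u s
  rw [abs_of_nonneg hs] at h5
  nlinarith [h5]

lemma hh_mul_le (g h : G) : hh (g * h) ≤ 2 * hh g * hh h := by
  refine (hh_mul_le' g h).trans ?_
  have h1 := one_le_hh g
  have h2 := one_le_hh h
  have h3 : √(hh g ^ 2 - 1) ≤ hh g := by
    rw [Real.sqrt_le_left (by linarith)]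
    linarith
  nlinarith

instance : SigmaFinite hm := inferInstance

lemma hm_mul_left (g : G) : MeasurePreserving (fun h => g * h) hm hm := hm_HM.left g
lemma hm_mul_right (g : G) : MeasurePreserving (fun h => h * g) hm hm := hm_HM.right g
lemma hm_inv : MeasurePreserving (fun h : G => h⁻¹) hm hm := hm_HM.inv

instance : hm.IsMulRightInvariant := ⟨fun g => (hm_HM.right g).map_eq⟩
instance : hm.IsInvInvariant := ⟨by
  show Measure.map _ _ = _
  exact hm_HM.inv.map_eq⟩

lemma hm_FR {x : ℝ} (hx : 1 < x) : hm {g | hh g < x} = ENNReal.ofReal (x - 1) := by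
  have : {g : G | hh g < x} = FR (2 * x) := by
    ext g; unfold hh FR; simp only [mem_ofPred_eq]; constructor <;> intro h <;> linarith
  rw [this, hm_HM.vol (2 * x) (by linarith)]
  congr 1; ring

lemma hm_Bx {x : ℝ} (hx : 1 ≤ x) : hm (Bx x) = ENNReal.ofReal (x - 1) := by
  apply le_antisymm
  · have h1 : Tendsto (fun n : ℕ => ENNReal.ofReal (x + 1 / ((n : ℝ) + 1) - 1)) atTop
        (𝓝 (ENNReal.ofReal (x - 1))) := by
      apply ENNReal.tendsto_ofReal
      have : Tendsto (fun n : ℕ => 1 / ((n : ℝ) + 1)) atTop (𝓝 0) :=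
        tendsto_one_div_add_atTop_nhds_zero_nat
      simpa using (this.const_add x).sub_const 1
    refine ge_of_tendsto' h1 fun n => ?_
    have h2 : (0 : ℝ) < 1 / ((n : ℝ) + 1) := by positivity
    rw [← hm_FR (by linarith)]
    apply measure_mono
    intro g hg
    have : hh g ≤ x := hg
    show hh g < _
    linarith
  · rcases hx.eq_or_lt with rfl | hx
    · simp
    · rw [← hm_FR hx]
      apply measure_mono
      intro g hg
      have h2 : hh g < x := hg
      exact h2.le

lemma bm_prob {x : ℝ} (hx : 1 < x) : IsProbabilityMeasure (bm x) := by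
  constructor
  unfold bm
  rw [Measure.smul_apply, Measure.restrict_apply_univ, hm_Bx hx.le, smul_eq_mul,
    ← ENNReal.ofReal_mul (by rw [inv_nonneg]; linarith), inv_mul_cancel₀ (by linarith),
    ENNReal.ofReal_one]

instance (x : ℝ) : IsFiniteMeasure (bm x) := by
  constructor
  unfold bm
  rw [Measure.smul_apply, Measure.restrict_apply_univ, smul_eq_mul]
  refine ENNReal.mul_lt_top ENNReal.ofReal_lt_top ?_
  refine (measure_mono (Bx_mono (le_max_left x 1))).trans_lt ?_
  rw [hm_Bx (le_max_right x 1)]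
  exact ENNReal.ofReal_lt_top

/-- the distribution of `hh` under Haar measure -/
lemma map_hh : hm.map hh = (volume : Measure ℝ).restrict (Ici 1) := by
  have hfin : ∀ n : ℤ, hm.map hh (Iic (n : ℝ)) ≠ ⊤ := by
    intro n
    rw [Measure.map_apply hh_measurable measurableSet_Iic]
    refine ((measure_mono (Bx_mono (le_max_left (n : ℝ) 1))).trans_lt ?_).ne
    rw [hm_Bx (le_max_right _ 1)]
    exact ENNReal.ofReal_lt_top
  have key : ∀ a : ℝ, hm.map hh (Iic a) = (volume : Measure ℝ).restrict (Ici 1) (Iic a) := by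
    intro a
    rw [Measure.map_apply hh_measurable measurableSet_Iic, Measure.restrict_apply measurableSet_Iic]
    have h1 : hh ⁻¹' Iic a = Bx a := rfl
    rw [h1, inter_comm, Ici_inter_Iic, Real.volume_Icc]
    rcases le_or_gt 1 a with ha | ha
    · exact hm_Bx ha
    · rw [ENNReal.ofReal_of_nonpos (by linarith)]
      have : Bx a = ∅ := by
        ext g; simp only [Bx, mem_ofPred_eq, mem_empty_iff_false, iff_false, not_le]
        exact lt_of_lt_of_le ha (one_le_hh g)
      rw [this, measure_empty]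
  have hloc : IsLocallyFiniteMeasure (hm.map hh) := by
    refine ⟨fun a => ⟨Iic (a+1), Iic_mem_nhds (by linarith), ?_⟩⟩
    rw [key, Measure.restrict_apply measurableSet_Iic, inter_comm, Ici_inter_Iic, Real.volume_Icc]
    exact ENNReal.ofReal_lt_top
  refine Measure.ext_of_Ioc _ _ fun a b hab => ?_
  have h1 : Ioc a b = Iic b \ Iic a := by ext; simp [and_comm]
  have hfa : ∀ a, hm.map hh (Iic a) ≠ ⊤ := by
    intro a
    rw [key, Measure.restrict_apply measurableSet_Iic, inter_comm, Ici_inter_Iic, Real.volume_Icc]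
    exact ENNReal.ofReal_ne_top
  rw [h1, measure_sdiff (Iic_subset_Iic.2 hab.le) measurableSet_Iic.nullMeasurableSet (hfa a),
    measure_sdiff (Iic_subset_Iic.2 hab.le) measurableSet_Iic.nullMeasurableSet
      (by rw [← key]; exact hfa a), key, key]

end

end Pool.Agent.W314.BA
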