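import Pool.Agent.W371.BA.DRL
import Pool.Agent.W371.BA.ME
import Pool.Agent.W849.BA.PL
import Pool.Agent.W320.BA.G2
import Pool.Agent.W371.BA.PO
import Pool.Agent.W371.BA.GC
import Pool.Agent.W605.BA.DSP
import Pool.Agent.W653.BA.TV
import Pool.Agent.W924.BA.OD
import Pool.Agent.W494.BA.RE
import Pool.Agent.W612.BA.EN
import Pool.Agent.W696.BA.TH
import Pool.Agent.W347.BA.B1
import Pool.Agent.W247.BA.B2
import Pool.Agent.W721.BA.CM
import Pool.Agent.W392.BA.CV
import Pool.Agent.W61.BA.PF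
import Pool.Agent.W912.BA.OP
import Pool.Agent.W397.BA.GA
import Pool.Agent.W91.BA.DE
import Pool.Agent.W340.BA.LL
import Pool.Agent.W654.BA.SU
import Pool.Agent.W135.BA.G1
import Pool.Agent.W935.BA.TA
import Pool.Agent.W721.BA.DX
import Pool.Agent.W196.BA.MX
import Pool.Agent.W120.BA.KA
import Pool.Agent.W585.BA.WK
import Pool.Agent.W748.BA.AE
import Pool.Agent.W883.BA.GD
import Pool.Agent.W82.BA.DN
import Pool.Agent.W370.BA.CX
import Pool.Agent.W120.BA.NG
import Pool.Agent.W381.BA.GG
import Pool.Agent.W18.BA.SH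
import Pool.Agent.W337.BA.CC
import Pool.Agent.W658.BA.FU
import Pool.Agent.W741.BA.WA
import Pool.Agent.W410.BA.SM
import Pool.Agent.W18.BA.SE
import Pool.Agent.W120.BA.SN
import Pool.Agent.W639.BA.SS
import Pool.Agent.W137.BA.SF
import Pool.Agent.W924.BA.LCT
import Pool.Agent.W179.BA.LA
import Pool.Agent.W654.BA.LB
import Pool.Agent.W54.BA.LC
import Pool.Agent.W924.BA.LS
import Pool.Agent.W196.BA.HT
import Pool.Agent.W589.BA.FI

/-!
# MP_f2742c_an: assembly of all the parts of the disproof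
-/

set_option autoImplicit false

namespace Pool.Agent.W314.BA

/-- the full disproof: there is an ergodic action of `PSL₂(ℝ)` without spectral gap whose ball
averages converge almost everywhere for all integrable functions -/
theorem final : FinalStmt := by
  have hME : MeanStmt := Pool.Agent.W371.BA.ME.main
  have hPL : PairFnStmt → Basic1Stmt → PairL2Stmt := Pool.Agent.W849.BA.main
  have hG2 : Grow2Stmt := Pool.Agent.W320.BA.main
  have hB1 : Basic1Stmt := Pool.Agent.W347.BA.main
  have hB2 : Basic2Stmt := Pool.Agent.W247.BA.main hB1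
  have hDR : DomRStmt := Pool.Agent.W371.BA.DRL.main.1
  have hDL : DomLStmt := Pool.Agent.W371.BA.DRL.main.2
  have hPO : PolarStmt := Pool.Agent.W371.BA.PO.main
  have hGC : GCommStmt := Pool.Agent.W371.BA.GC.main
  have hCV : ConvStmt := Pool.Agent.W392.BA.main hPO
  have hPF : PairFnStmt := Pool.Agent.W61.BA.PF.main hCV hME
  have hP2 : PairL2Stmt := hPL hPF hB1
  have hEN : EnergyStmt := Pool.Agent.W612.BA.main Pool.Agent.W924.BA.main Pool.Agent.W494.BA.RE.main
  have hCM : CommStmt := Pool.Agent.W721.BA.CM.main hGC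
  have hOP : OpStmt := Pool.Agent.W912.BA.OP.main hB1 hB2 hCM
  have hGA : GapStmt := Pool.Agent.W397.BA.main hB2
  have hDE : DecayStmt := Pool.Agent.W91.BA.DE.main hEN hOP hP2 hGA hB1 hB2
  have hTH : ThetaStmt := Pool.Agent.W696.BA.TH.main
  have hLL : LLTStmt := Pool.Agent.W340.BA.LL.main hDE hTH hDR hDL hB1 hB2
  have hSU : SupStmt := Pool.Agent.W654.BA.main hDR
  have hG1 : Grow1Stmt := Pool.Agent.W135.BA.main
  have hDS : DomSplitStmt := Pool.Agent.W605.BA.DSP.main
  have hTA : TailStmt := Pool.Agent.W935.BA.main hLL hSU hG1 hG2 hDS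
  have hDX : DomXStmt := Pool.Agent.W721.BA.DX.main hTA hDL
  have hMX : MaxStmt := Pool.Agent.W196.BA.main
  have hKA : KnAvStmt := Pool.Agent.W120.BA.KA.main
  have hWK : WeakStmt := Pool.Agent.W585.BA.main hDX hMX hKA
  have hAE : AeStmt := Pool.Agent.W748.BA.main hB1
  have hTV : TVStmt := Pool.Agent.W653.BA.main
  have hGD : GoodStmt := Pool.Agent.W883.BA.main hTV hDE hAE hB1 hB2
  have hDN : DensStmt := Pool.Agent.W82.BA.main
  have hCX : ConvXStmt := Pool.Agent.W370.BA.main hWK hGD hDN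
  have hNG : NoGapXStmt := Pool.Agent.W120.BA.NG.main
  have hGG : GamGroupStmt := Pool.Agent.W381.BA.GG.main
  have hSH : ShortStmt := Pool.Agent.W18.BA.SH.main
  have hCC : CocompStmt := Pool.Agent.W337.BA.CC.main hSH
  have hFU : FundStmt := Pool.Agent.W658.BA.main
  have hWA : WalStmt := Pool.Agent.W741.BA.WA.main
  have hSM : SgMeasStmt := Pool.Agent.W410.BA.SM.main hWA
  have hSE : SgMulStmt := Pool.Agent.W18.BA.SE.main hWA
  have hSN : SgNeStmt := Pool.Agent.W120.BA.SN.main hWA
  have hLA : LatAStmt := Pool.Agent.W179.BA.main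
  have hLT : LatCountStmt := Pool.Agent.W924.BALCT.main
  have hLB : LatBStmt := Pool.Agent.W654.BA.LB.main hLT hLA
  have hLC : LatCStmt := Pool.Agent.W54.BA.main hLA
  have hLS : LatSysStmt := Pool.Agent.W924.BALS.main hLA hLB hLC
  have hSS : SysStmt := Pool.Agent.W639.BA.main hLS hGG hCC hFU hSM hSE hSN
  have hSF : SLFinalStmt := W137.BA.main hSS hCX hNG
  have hHT : HaarTransStmt := Pool.Agent.W196.BA.HT.main
  exact Pool.Agent.W589.BA.main hSF hHT

end Pool.Agent.W314.BA
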