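import Pool.Agent.W314.BA.Stm

/-! MP_f2742c_an: the action on a strict fundamental set of a lattice; transfer to `PSL(2,ℝ)`. -/

open MeasureTheory Set Filter Topology Real
open scoped ENNReal NNReal

namespace Pool.Agent.W314.BA

open Pool.Agent.W745 (NN FR HM kk dg)

noncomputable section

section lat
variable {Γ : Subgroup G} {σ : G → ℤ} {F : Set G}

/-- the element of the lattice moving `g` into the fundamental set -/
def gamL (h : LatD Γ σ F) (g : G) : Γ := (h.F_fund g).choose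

lemma gamL_mem (h : LatD Γ σ F) (g : G) : g * (gamL h g : G) ∈ F :=
  (h.F_fund g).choose_spec.1

lemma gamL_uniq (h : LatD Γ σ F) (g : G) (γ : Γ) (hγ : g * (γ : G) ∈ F) : γ = gamL h g :=
  (h.F_fund g).choose_spec.2 γ hγ

/-- reduction to the fundamental set -/
def redL (h : LatD Γ σ F) (g : G) : F := ⟨g * (gamL h g : G), gamL_mem h g⟩

lemma redL_coe_eq (h : LatD Γ σ F) (g : G) : (redL h g : G) = g * (gamL h g : G) := rfl

lemma redL_of_mem (h : LatD Γ σ F) (g : G) (γ : Γ) (hγ : g * (γ : G) ∈ F) :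
    redL h g = ⟨g * (γ : G), hγ⟩ := by
  apply Subtype.ext
  rw [redL_coe_eq, ← gamL_uniq h g γ hγ]

lemma redL_mul (h : LatD Γ σ F) (g : G) (γ : Γ) : redL h (g * (γ : G)) = redL h g := by
  have h1 : (g * (γ : G)) * ((γ⁻¹ * gamL h g : Γ) : G) = g * (gamL h g : G) := by
    push_cast
    group
  rw [redL_of_mem h (g * (γ : G)) (γ⁻¹ * gamL h g) (by rw [h1]; exact gamL_mem h g)]
  apply Subtype.ext
  exact h1

lemma redL_coe (h : LatD Γ σ F) (d : F) : redL h (d : G) = d := by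
  rw [redL_of_mem h (d : G) 1 (by simp)]
  apply Subtype.ext
  simp

lemma redL_mul_redL (h : LatD Γ σ F) (g g' : G) :
    redL h (g * (redL h g' : G)) = redL h (g * g') := by
  rw [redL_coe_eq, ← mul_assoc, redL_mul]

/-- the action of `G` on the fundamental set -/
@[instance_reducible]
def actL (h : LatD Γ σ F) : MulAction G F where
  smul g d := redL h (g * (d : G))
  one_smul d := by
    show redL h (1 * (d : G)) = d
    rw [one_mul, redL_coe]
  mul_smul g g' d := by
    show redL h (g * g' * (d : G)) = redL h (g * (redL h (g' * (d : G)) : G))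
    rw [redL_mul_redL, mul_assoc]

/-- the invariant probability measure on the fundamental set -/
def muL (F : Set G) : Measure F := (hm F)⁻¹ • hm.comap ((↑) : F → G)

/-- the cocycle -/
def cL (σ : G → ℤ) (F : Set G) (g : G) (d : F) : ℤ := σ (g * (d : G)) - σ (d : G)

end lat

/-- LA: measurability and invariance. -/
def LatAStmt : Prop := ∀ (Γ : Subgroup G) (σ : G → ℤ) (F : Set G) (h : LatD Γ σ F),
  IsProbabilityMeasure (muL F) ∧ Measurable (redL h) ∧
  ∀ g : G, MeasurePreserving (fun d : F => redL h (g * (d : G))) (muL F) (muL F)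

/-- LB: bounded density of small balls. -/
def LatBStmt : Prop := ∀ (Γ : Subgroup G) (σ : G → ℤ) (F : Set G) (h : LatD Γ σ F),
  ∃ C : ℝ≥0∞, C ≠ ⊤ ∧ ∀ y : F,
    (hm.restrict (Bx 2)).map (fun g => redL h (g * (y : G))) ≤ C • muL F

/-- LC: large balls cover. -/
def LatCStmt : Prop := ∀ (Γ : Subgroup G) (σ : G → ℤ) (F : Set G) (h : LatD Γ σ F),
  ∃ x : ℝ, 1 < x ∧ ∃ d : ℤ, d ≠ 0 ∧ ∃ ε : ℝ≥0∞, ε ≠ 0 ∧ ∃ s : F → ℤ, Measurable s ∧
    ∀ y : F, ε • ((muL F).map (fun y' => (y', s y' - s y)) +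
        (muL F).map (fun y' => (y', s y' - s y + d)))
      ≤ (hm.restrict (Bx x)).map (fun g => (redL h (g * (y : G)), cL σ F g y))

/-- LB1: the stabiliser count used in LB. -/
def LatCountStmt : Prop := ∀ (Γ : Subgroup G) (σ : G → ℤ) (F : Set G) (_h : LatD Γ σ F) (R : ℝ),
  {γ : G | γ ∈ Γ ∧ ∃ u ∈ Bx R, u * γ ∈ F}.Finite

/-- HT: normalised Haar measure on balls of `PSL(2,ℝ)`. -/
def HaarTransStmt : Prop := ∀ (m : Measure PSL) [m.IsHaarMeasure] (p₀ : UpperHalfPlane),
  ∃ h₀ : G, ∀ r : ℝ, 0 < r →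
    0 < m (ballP p₀ r) ∧ m (ballP p₀ r) < ⊤ ∧
    (m (ballP p₀ r))⁻¹ • m.restrict (ballP p₀ r) =
      (bm (Real.cosh r)).map (fun g : G => (QuotientGroup.mk (h₀ * g * h₀⁻¹) : PSL))

end

end Pool.Agent.W314.BA
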