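import Pool.Agent.W314.BA.Facts

/-! MP_f2742c_an: definitions and statements of the parts of the proof. -/

open MeasureTheory Set Filter Topology Real
open scoped ENNReal NNReal

namespace Pool.Agent.W314.BA

open Pool.Agent.W745 (NN FR HM kk dg)

noncomputable section

/-- a probability measure preserving action of `SL(2,ℝ)` (trivial on `-1`) together with an
integer cocycle satisfying the estimates needed below -/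
structure Sys {Y : Type} [MeasurableSpace Y] [MulAction G Y] (μ : Measure Y)
    (c : G → Y → ℤ) : Prop where
  prob : IsProbabilityMeasure μ
  smul_meas : Measurable (fun p : G × Y => p.1 • p.2)
  mp : ∀ g : G, MeasurePreserving (fun y : Y => g • y) μ μ
  c_meas : Measurable (fun p : G × Y => c p.1 p.2)
  coc : ∀ (g h : G) (y : Y), c (g * h) y = c g (h • y) + c h y
  neg_smul : ∀ y : Y, (-1 : G) • y = y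
  c_neg : ∀ y : Y, c (-1) y = 0
  bdd : ∀ x : ℝ, ∃ C : ℤ, ∀ g ∈ Bx x, ∀ y, |c g y| ≤ C
  dens : ∃ C : ℝ≥0∞, C ≠ ⊤ ∧ ∀ y : Y, (hm.restrict (Bx 2)).map (fun g => g • y) ≤ C • μ
  cover : ∃ x : ℝ, 1 < x ∧ ∃ d : ℤ, d ≠ 0 ∧ ∃ ε : ℝ≥0∞, ε ≠ 0 ∧ ∃ s : Y → ℤ, Measurable s ∧
    ∀ y : Y, ε • (μ.map (fun y' => (y', s y' - s y)) + μ.map (fun y' => (y', s y' - s y + d)))
      ≤ (hm.restrict (Bx x)).map (fun g => (g • y, c g y))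

/-- `exp (2 π i t)` -/
def ee (t : ℝ) : ℂ := Complex.exp (2 * π * Complex.I * t)

section ops
variable {Y : Type} [MeasurableSpace Y] [MulAction G Y]

/-- twisted average of `f` over a measure `ν` on the group -/
def tw (c : G → Y → ℤ) (θ : ℝ) (ν : Measure G) (f : Y → ℂ) (y : Y) : ℂ :=
  ∫ g, ee (θ * c g y) * f (g • y) ∂ν

/-- twisted operator with the radial kernel `F (hh g)` -/
def op (c : G → Y → ℤ) (θ : ℝ) (F : ℝ → ℝ) (f : Y → ℂ) (y : Y) : ℂ :=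
  ∫ g, (F (hh g) : ℂ) * (ee (θ * c g y) * f (g • y)) ∂hm

/-- bounded measurable functions -/
def BM (f : Y → ℂ) : Prop := Measurable f ∧ ∃ C : ℝ, ∀ y, ‖f y‖ ≤ C

end ops

/-- the kernels `(1+t)^{-s}` -/
def Fs (s : ℕ) (t : ℝ) : ℝ := ((1 + t) ^ s)⁻¹

/-- minus the radial Laplacian of `Fs s` -/
def Gs (s : ℕ) (t : ℝ) : ℝ := 2 * (s : ℝ) ^ 2 * Fs (s + 1) t - (s : ℝ) * ((s : ℝ) - 1) * Fs s t

/-- admissible kernels -/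
def KF (F : ℝ → ℝ) : Prop := ContinuousOn F (Ici 1) ∧ ∃ C : ℝ, ∀ t : ℝ, 1 ≤ t → |F t| ≤ C * Fs 2 t

/-- spherical mean of a radial function -/
def circ (F : ℝ → ℝ) (t w : ℝ) : ℝ :=
  (2 * π)⁻¹ * ∫ a in (0 : ℝ)..(2 * π), F (t * w + √(t ^ 2 - 1) * √(w ^ 2 - 1) * Real.cos a)

/-- ball mean of a radial function -/
def Av (F : ℝ → ℝ) (t w : ℝ) : ℝ := (t - 1)⁻¹ * ∫ τ in (1 : ℝ)..t, circ F τ w

/-! ### Group and calculus -/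

/-- A1: polar coordinates. -/
def PolarStmt : Prop := ∀ F : ℝ → ℝ, ContinuousOn F (Ici 1) → ∀ (u : G) (x : ℝ), 1 < x →
  ∫ g, F (hh (g * u)) ∂(bm x) = Av F x (hh u)

/-- A2: the mean value formula for the kernels `Fs s` (integrated radial wave/Darboux equation). -/
def MeanStmt : Prop := ∀ s : ℕ, 2 ≤ s → ∀ w : ℝ, 1 ≤ w → ∀ X : ℝ, 1 < X →
  Av (Fs s) X w = Fs s w - (X - 1)⁻¹ * ∫ t in (1 : ℝ)..X, (X - t) / (t + 1) * Av (Gs s) t w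

/-- A5': commutativity of radial averages, on the level of the group. -/
def GCommStmt : Prop := ∀ (x y : ℝ), 1 < x → 1 < y → ∀ φ : G → ℂ, Measurable φ →
  (∃ C : ℝ, ∀ g, ‖φ g‖ ≤ C) →
  ∫ g, ∫ h, φ (h * g) ∂(bm x) ∂(bm y) = ∫ g, ∫ h, φ (h * g) ∂(bm y) ∂(bm x)

/-- D1: domination on the right. -/
def DomRStmt : Prop := ∃ C : ℝ≥0∞, C ≠ ⊤ ∧ ∀ x : ℝ, 2 ≤ x → ∀ φ : G → ℝ≥0∞, Measurable φ →
  ∫⁻ g, φ g ∂(bm x) ≤ C * ∫⁻ g, ∫⁻ u, φ (g * u) ∂(bm 2) ∂(bm (4 * x))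

/-- D2: domination on the left. -/
def DomLStmt : Prop := ∃ C : ℝ≥0∞, C ≠ ⊤ ∧ ∀ x : ℝ, 2 ≤ x → ∀ φ : G → ℝ≥0∞, Measurable φ →
  ∫⁻ g, φ g ∂(bm x) ≤ C * ∫⁻ g, ∫⁻ u, φ (u * g) ∂(bm 2) ∂(bm (4 * x))

/-- D3: a ball is dominated by the product of two balls of half the radius. -/
def DomSplitStmt : Prop := ∃ C : ℝ≥0∞, C ≠ ⊤ ∧ ∀ x : ℝ, 2 ≤ x → ∀ φ : G → ℝ≥0∞, Measurable φ →
  ∫⁻ g, φ g ∂(bm x) ≤ C * ∫⁻ h, ∫⁻ g, φ (g * h) ∂(bm (4 * √x)) ∂(bm (4 * √x))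

/-- total mass of the kernel -/
def cs (s : ℕ) : ℝ := ∫ g, Fs s (hh g) ∂hm

/-- A22: smoothing with the kernel `Fs s`, `s` large, changes a ball average only a little in
total variation, uniformly in the radius. -/
def TVStmt : Prop := ∀ ε : ℝ, 0 < ε → ∃ s : ℕ, 2 ≤ s ∧ 0 < cs s ∧ ∀ x : ℝ, 2 ≤ x →
  ∀ φ : G → ℂ, Measurable φ → (∀ g, ‖φ g‖ ≤ 1) →
  ‖∫ g, φ g ∂(bm x) - ((cs s)⁻¹ : ℂ) * ∫ g, ∫ v, (Fs s (hh v) : ℂ) * φ (v * g) ∂hm ∂(bm x)‖ ≤ ε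

/-! ### Abstract Hilbert space lemmas -/

/-- E1: the energy estimate for `(x²-1) β'' = -b`. -/
def ODEStmt : Prop := ∀ (H : Type) [NormedAddCommGroup H] [InnerProductSpace ℝ H]
  (β p b : ℝ → H) (κ : ℝ), 0 < κ → κ ≤ 1 →
  (∀ x : ℝ, 1 < x → HasDerivAt β (p x) x) →
  (∀ x : ℝ, 1 < x → HasDerivAt p (-(x ^ 2 - 1)⁻¹ • b x) x) →
  ContinuousOn b (Ioi 1) →
  (∀ x y : ℝ, 1 < x → 1 < y → inner ℝ (b x) (β y) = inner ℝ (b y) (β x)) →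
  (∀ x : ℝ, 1 < x → κ * ‖β x‖ ^ 2 ≤ inner ℝ (b x) (β x)) →
  ∀ x : ℝ, 2 ≤ x → ‖β x‖ ^ 2 ≤
    16 * x ^ 2 * (‖p 2‖ + ‖β 2‖ + ‖b 2‖) ^ 2 * (x / 2) ^ (-(κ / 2))

section abs
variable {H : Type} [NormedAddCommGroup H] [InnerProductSpace ℂ H]

/-- commuting self-adjoint contractions -/
structure AvSys (A : ℝ → H →L[ℂ] H) : Prop where
  sa : ∀ x : ℝ, 1 < x → ∀ u v : H, inner ℂ (A x u) v = inner ℂ u (A x v)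
  con : ∀ x : ℝ, 1 < x → ∀ u : H, ‖A x u‖ ≤ ‖u‖
  comm : ∀ x y : ℝ, 1 < x → 1 < y → ∀ u : H, A x (A y u) = A y (A x u)

/-- `g` is minus the Laplacian of `f` -/
structure Pair (A : ℝ → H →L[ℂ] H) (f g : H) : Prop where
  contf : ContinuousOn (fun x => A x f) (Ioi 1)
  cont : ContinuousOn (fun x => A x g) (Ioi 1)
  lim : Tendsto (fun x => A x g) (𝓝[>] 1) (𝓝 g)
  eq : ∀ X : ℝ, 1 < X →
    A X f = f - (X - 1)⁻¹ • ∫ t in (1 : ℝ)..X, ((X - t) / (t + 1)) • A t g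

end abs

/-- E2: a gap for one operator `1 - A X` gives a gap for the Laplacian. -/
def ReidStmt : Prop := ∀ (H : Type) [NormedAddCommGroup H] [InnerProductSpace ℂ H]
  [CompleteSpace H] (A : ℝ → H →L[ℂ] H) (f g : H), AvSys A → Pair A f g →
  ∀ (X κ₀ : ℝ), 1 < X → 0 ≤ κ₀ → κ₀ * ‖f‖ ^ 2 ≤ ‖f‖ ^ 2 - (inner ℂ (A X f) f).re →
  4 * κ₀ / (X - 1) * ‖f‖ ^ 2 ≤ (inner ℂ g f).re

/-- E3: exponential decay of ball averages. -/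
def EnergyStmt : Prop := ∀ (H : Type) [NormedAddCommGroup H] [InnerProductSpace ℂ H]
  [CompleteSpace H] (A : ℝ → H →L[ℂ] H) (f g : H), AvSys A → Pair A f g →
  ∀ (X κ₀ κ : ℝ), 1 < X → 0 < κ → κ ≤ 1 → κ * (X - 1) ≤ 4 * κ₀ →
  (∀ x : ℝ, 1 < x → κ₀ * ‖A x f‖ ^ 2 ≤ ‖A x f‖ ^ 2 - (inner ℂ (A X (A x f)) (A x f)).re) →
  ∀ x : ℝ, 2 ≤ x → ‖A x f‖ ^ 2 ≤ 256 * (‖f‖ + ‖g‖) ^ 2 * (x / 2) ^ (-(κ / 2))

/-- E4: numerical lemma. -/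
def ThetaStmt : Prop := ∀ (κ : ℝ) (d : ℤ), 0 < κ → d ≠ 0 → ∃ C : ℝ, ∀ x : ℝ, 2 ≤ x →
  ∫ θ in (0 : ℝ)..1, x ^ (-(κ * ‖ee (d * θ) - 1‖ ^ 2)) ≤ C / √(Real.log x)

/-! ### Operators attached to a system -/

/-- O1: elementary properties of the averages. -/
def Basic1Stmt : Prop := ∀ (Y : Type) [MeasurableSpace Y] [MulAction G Y] (μ : Measure Y)
  (c : G → Y → ℤ), Sys μ c → ∀ (θ : ℝ) (f : Y → ℂ), BM f →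
  (∀ x : ℝ, 1 < x → BM (tw c θ (bm x) f)) ∧
  (∀ F : ℝ → ℝ, KF F → BM (op c θ F f)) ∧
  (∀ (C x : ℝ), 1 < x → (∀ y, ‖f y‖ ≤ C) → ∀ y, ‖tw c θ (bm x) f y‖ ≤ C) ∧
  (∀ (C x x' : ℝ), 1 < x → 1 < x' → (∀ y, ‖f y‖ ≤ C) → ∀ y,
    ‖(x - 1) • tw c θ (bm x) f y - (x' - 1) • tw c θ (bm x') f y‖ ≤ C * |x - x'|)

/-- O2: self-adjointness, contraction, integrals. -/
def Basic2Stmt : Prop := ∀ (Y : Type) [MeasurableSpace Y] [MulAction G Y] (μ : Measure Y)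
  (c : G → Y → ℤ), Sys μ c → ∀ (θ : ℝ) (f f' : Y → ℂ), BM f → BM f' → ∀ x : ℝ, 1 < x →
  (∫ y, tw c θ (bm x) f y * (starRingEnd ℂ) (f' y) ∂μ =
    ∫ y, f y * (starRingEnd ℂ) (tw c θ (bm x) f' y) ∂μ) ∧
  (∫ y, ‖tw c θ (bm x) f y‖ ^ 2 ∂μ ≤ ∫ y, ‖f y‖ ^ 2 ∂μ) ∧
  (∫ y, tw c 0 (bm x) f y ∂μ = ∫ y, f y ∂μ) ∧
  (∀ F : ℝ → ℝ, KF F → ∫ y, op c 0 F f y ∂μ = ((∫ g, F (hh g) ∂hm : ℝ) : ℂ) * ∫ y, f y ∂μ)

/-- O3: commutation. -/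
def CommStmt : Prop := ∀ (Y : Type) [MeasurableSpace Y] [MulAction G Y] (μ : Measure Y)
  (c : G → Y → ℤ), Sys μ c → ∀ (θ : ℝ) (f : Y → ℂ), BM f → ∀ x x' : ℝ, 1 < x → 1 < x' → ∀ y,
  tw c θ (bm x) (tw c θ (bm x') f) y = tw c θ (bm x') (tw c θ (bm x) f) y

/-- O4: averages of smoothed functions. -/
def ConvStmt : Prop := ∀ (Y : Type) [MeasurableSpace Y] [MulAction G Y] (μ : Measure Y)
  (c : G → Y → ℤ), Sys μ c → ∀ (θ : ℝ) (f : Y → ℂ), BM f → ∀ F : ℝ → ℝ, KF F →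
  ∀ t : ℝ, 1 < t → ∀ y, tw c θ (bm t) (op c θ F f) y = op c θ (fun w => Av F t w) f y

/-- O5: the pair relation on the level of functions. -/
def PairFnStmt : Prop := ∀ (Y : Type) [MeasurableSpace Y] [MulAction G Y] (μ : Measure Y)
  (c : G → Y → ℤ), Sys μ c → ∀ (θ : ℝ) (f : Y → ℂ), BM f → ∀ s : ℕ, 2 ≤ s →
  ∀ X : ℝ, 1 < X → ∀ y, tw c θ (bm X) (op c θ (Fs s) f) y = op c θ (Fs s) f y -
    ((X - 1)⁻¹ : ℂ) * ∫ t in (1 : ℝ)..X, (((X - t) / (t + 1) : ℝ) : ℂ) *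
      tw c θ (bm t) (op c θ (Gs s) f) y

/-- O6: the averages as operators on `L²`. -/
def OpStmt : Prop := ∀ (Y : Type) [MeasurableSpace Y] [MulAction G Y] (μ : Measure Y)
  (c : G → Y → ℤ), Sys μ c → ∀ θ : ℝ, ∃ A : ℝ → (Lp ℂ 2 μ →L[ℂ] Lp ℂ 2 μ), AvSys A ∧
  (∀ x : ℝ, 1 < x → ∀ (u : Lp ℂ 2 μ) (f : Y → ℂ), BM f → (u : Y → ℂ) =ᵐ[μ] f →
    ((A x u : Lp ℂ 2 μ) : Y → ℂ) =ᵐ[μ] tw c θ (bm x) f)

/-- O7: smoothed functions form pairs in `L²`. -/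
def PairL2Stmt : Prop := ∀ (Y : Type) [MeasurableSpace Y] [MulAction G Y] (μ : Measure Y)
  (c : G → Y → ℤ), Sys μ c → ∀ (θ : ℝ) (A : ℝ → (Lp ℂ 2 μ →L[ℂ] Lp ℂ 2 μ)), AvSys A →
  (∀ x : ℝ, 1 < x → ∀ (u : Lp ℂ 2 μ) (f : Y → ℂ), BM f → (u : Y → ℂ) =ᵐ[μ] f →
    ((A x u : Lp ℂ 2 μ) : Y → ℂ) =ᵐ[μ] tw c θ (bm x) f) →
  ∀ (f : Y → ℂ), BM f → ∀ s : ℕ, 2 ≤ s → ∀ u v : Lp ℂ 2 μ,
  (u : Y → ℂ) =ᵐ[μ] op c θ (Fs s) f → (v : Y → ℂ) =ᵐ[μ] op c θ (Gs s) f → Pair A u v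

/-- O8: the spectral gap of the ball average, from `cover`. -/
def GapStmt : Prop := ∀ (Y : Type) [MeasurableSpace Y] [MulAction G Y] (μ : Measure Y)
  (c : G → Y → ℤ), Sys μ c → ∃ X κ₀ : ℝ, 1 < X ∧ 0 < κ₀ ∧ ∃ d : ℤ, d ≠ 0 ∧
  (∀ (θ : ℝ) (f : Y → ℂ), BM f → κ₀ * ‖ee (d * θ) - 1‖ ^ 2 * ∫ y, ‖f y‖ ^ 2 ∂μ ≤
    ∫ y, ‖f y‖ ^ 2 ∂μ - (∫ y, tw c θ (bm X) f y * (starRingEnd ℂ) (f y) ∂μ).re) ∧
  (∀ f : Y → ℂ, BM f → ∫ y, f y ∂μ = 0 → κ₀ * ∫ y, ‖f y‖ ^ 2 ∂μ ≤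
    ∫ y, ‖f y‖ ^ 2 ∂μ - (∫ y, tw c 0 (bm X) f y * (starRingEnd ℂ) (f y) ∂μ).re)

/-- O9: decay of averages of smoothed functions. -/
def DecayStmt : Prop := ∀ (Y : Type) [MeasurableSpace Y] [MulAction G Y] (μ : Measure Y)
  (c : G → Y → ℤ), Sys μ c → ∃ κ : ℝ, 0 < κ ∧ ∃ d : ℤ, d ≠ 0 ∧ ∀ s : ℕ, 2 ≤ s → ∃ C : ℝ,
  (∀ (θ : ℝ) (f : Y → ℂ), Measurable f → (∀ y, ‖f y‖ ≤ 1) → ∀ x : ℝ, 2 ≤ x →
    ∫ y, ‖tw c θ (bm x) (op c θ (Fs s) f) y‖ ^ 2 ∂μ ≤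
      C * x ^ (-(κ * ‖ee (d * θ) - 1‖ ^ 2))) ∧
  (∀ f : Y → ℂ, Measurable f → (∀ y, ‖f y‖ ≤ 1) → ∫ y, f y ∂μ = 0 → ∀ x : ℝ, 2 ≤ x →
    ∫ y, ‖tw c 0 (bm x) (op c 0 (Fs s) f) y‖ ^ 2 ∂μ ≤ C * x ^ (-κ))

/-! ### Distribution of the cocycle -/

section dist
variable {Y : Type} [MeasurableSpace Y] [MulAction G Y]

/-- distribution of the cocycle over the ball, averaged over the starting point -/
def Kn (μ : Measure Y) (c : G → Y → ℤ) (x : ℝ) (n : ℤ) : ℝ≥0∞ := ∫⁻ y, bm x {g | c g y = n} ∂μ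

/-- supremum over the starting point -/
def Sn (c : G → Y → ℤ) (x : ℝ) (n : ℤ) : ℝ≥0∞ := ⨆ y : Y, bm x {g | c g y = n}

end dist

/-- the comparison kernel -/
def kn (x : ℝ) (n : ℤ) : ℝ≥0∞ :=
  ENNReal.ofReal ((√(Real.log x) * (1 + (n : ℝ) ^ 2 / Real.log x))⁻¹)

/-- K1: the local limit upper bound. -/
def LLTStmt : Prop := ∀ (Y : Type) [MeasurableSpace Y] [MulAction G Y] (μ : Measure Y)
  (c : G → Y → ℤ), Sys μ c → ∃ C : ℝ, ∀ x : ℝ, 2 ≤ x → ∀ n : ℤ,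
  Kn μ c x n ≤ ENNReal.ofReal (C / √(Real.log x))

/-- K2: the pointwise bound in terms of the averaged one. -/
def SupStmt : Prop := ∀ (Y : Type) [MeasurableSpace Y] [MulAction G Y] (μ : Measure Y)
  (c : G → Y → ℤ), Sys μ c → ∃ (C : ℝ≥0∞) (J : ℕ), C ≠ ⊤ ∧ ∀ x : ℝ, 2 ≤ x → ∀ n : ℤ,
  Sn c x n ≤ C * ∑ j ∈ Finset.Icc (-(J : ℤ)) J, Kn μ c (4 * x) (n - j)

/-- the properties of the (square of the norm of the) normalised cocycle -/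
structure GrowHyp (Ψ : ℝ → ℝ) : Prop where
  nonneg : ∀ t : ℝ, 1 ≤ t → 0 ≤ Ψ t
  meas : Measurable Ψ
  bdd : ∀ T : ℝ, ∃ C : ℝ, ∀ t : ℝ, 1 ≤ t → t ≤ T → Ψ t ≤ C
  tri : ∀ g h : G, √(Ψ (hh (g * h))) ≤ √(Ψ (hh g)) + √(Ψ (hh h))
  dbl : ∀ x : ℝ, 1 ≤ x →
    (2 * π)⁻¹ * ∫ a in (0 : ℝ)..(2 * π), Ψ (x ^ 2 + (x ^ 2 - 1) * Real.cos a) ≤ 2 * Ψ x

/-- K3: the second moment of the cocycle is controlled by a function satisfying `GrowHyp`. -/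
def Grow1Stmt : Prop := ∀ (Y : Type) [MeasurableSpace Y] [MulAction G Y] (μ : Measure Y)
  (c : G → Y → ℤ), Sys μ c → ∃ (Ψ : ℝ → ℝ) (C : ℝ), GrowHyp Ψ ∧
  ∀ g : G, ∫ y, (c g y : ℝ) ^ 2 ∂μ ≤ 2 * Ψ (hh g) + C

/-- K4: functions satisfying `GrowHyp` grow at most logarithmically. -/
def Grow2Stmt : Prop := ∀ Ψ : ℝ → ℝ, GrowHyp Ψ → ∃ C : ℝ, ∀ t : ℝ, 1 ≤ t →
  Ψ t ≤ C * (1 + Real.log t)

/-- K5: the kernel bound. -/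
def TailStmt : Prop := ∀ (Y : Type) [MeasurableSpace Y] [MulAction G Y] (μ : Measure Y)
  (c : G → Y → ℤ), Sys μ c → ∃ C : ℝ≥0∞, C ≠ ⊤ ∧ ∀ x : ℝ, 2 ≤ x → ∀ n : ℤ,
  Sn c x n ≤ C * kn x n

/-! ### The product with the circle -/

/-- the circle `ℝ/ℤ` -/
abbrev T := UnitAddCircle

/-- Haar probability measure on the circle -/
def tm : Measure T := AddCircle.haarAddCircle

/-- W1: pointwise domination of ball averages. -/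
def DomXStmt : Prop := ∀ (Y : Type) [MeasurableSpace Y] [MulAction G Y] (μ : Measure Y)
  (c : G → Y → ℤ), Sys μ c → ∃ C : ℝ≥0∞, C ≠ ⊤ ∧ ∀ (α : T) (f : Y × T → ℝ≥0∞), Measurable f →
  ∀ x : ℝ, 2 ≤ x → ∀ (y : Y) (z : T),
  ∫⁻ g, f (g • y, z + c g y • α) ∂(bm x) ≤ C * ∑' n : ℤ, kn x n * ∫⁻ y', f (y', z + n • α) ∂μ

/-- W2: two-sided maximal inequality for a rotation. -/
def MaxStmt : Prop := ∃ C : ℝ≥0∞, C ≠ ⊤ ∧ ∀ (α : T) (φ : T → ℝ≥0∞), Measurable φ →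
  ∀ l : ℝ≥0∞, l ≠ 0 → l ≠ ⊤ →
  tm {z | ∃ N : ℕ, l * (2 * N + 1) < ∑ n ∈ Finset.Icc (-(N : ℤ)) N, φ (z + n • α)} ≤
    C * (∫⁻ z, φ z ∂tm) / l

/-- W3: the kernels `kn x` are dominated by averages over intervals. -/
def KnAvStmt : Prop := ∃ C : ℝ≥0∞, C ≠ ⊤ ∧ ∀ (φ : ℤ → ℝ≥0∞) (l : ℝ≥0∞),
  (∀ N : ℕ, ∑ n ∈ Finset.Icc (-(N : ℤ)) N, φ n ≤ l * (2 * N + 1)) →
  ∀ x : ℝ, 2 ≤ x → ∑' n : ℤ, kn x n * φ n ≤ C * l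

/-- W4: the weak type maximal inequality. -/
def WeakStmt : Prop := ∀ (Y : Type) [MeasurableSpace Y] [MulAction G Y] (μ : Measure Y)
  (c : G → Y → ℤ), Sys μ c → ∃ C : ℝ≥0∞, C ≠ ⊤ ∧ ∀ (α : T) (f : Y × T → ℝ≥0∞), Measurable f →
  ∀ l : ℝ≥0∞, l ≠ 0 → l ≠ ⊤ →
  (μ.prod tm) {p | ∃ x : ℝ, 2 ≤ x ∧
    l < ∫⁻ g, f (g • p.1, p.2 + c g p.1 • α) ∂(bm x)} ≤ C * (∫⁻ p, f p ∂(μ.prod tm)) / l

/-- V1: decay in `L²` gives almost everywhere convergence. -/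
def AeStmt : Prop := ∀ (Y : Type) [MeasurableSpace Y] [MulAction G Y] (μ : Measure Y)
  (c : G → Y → ℤ), Sys μ c → ∀ (θ : ℝ) (f : Y → ℂ), BM f → ∀ (κ C : ℝ), 0 < κ →
  (∀ x : ℝ, 2 ≤ x → ∫ y, ‖tw c θ (bm x) f y‖ ^ 2 ∂μ ≤ C * x ^ (-κ)) →
  ∀ᵐ y ∂μ, Tendsto (fun x => tw c θ (bm x) f y) atTop (𝓝 0)

/-- V2: almost everywhere convergence for bounded functions on `Y`. -/
def GoodStmt : Prop := ∀ (Y : Type) [MeasurableSpace Y] [MulAction G Y] (μ : Measure Y)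
  (c : G → Y → ℤ), Sys μ c → ∃ d : ℤ, d ≠ 0 ∧
  (∀ (θ : ℝ) (f : Y → ℂ), BM f → ee (d * θ) ≠ 1 →
    ∀ᵐ y ∂μ, Tendsto (fun x => tw c θ (bm x) f y) atTop (𝓝 0)) ∧
  (∀ f : Y → ℂ, BM f →
    ∀ᵐ y ∂μ, Tendsto (fun x => tw c 0 (bm x) f y) atTop (𝓝 (∫ y, f y ∂μ)))

/-- V3: trigonometric polynomials with bounded measurable coefficients are dense. -/
def DensStmt : Prop := ∀ (Y : Type) [MeasurableSpace Y] (μ : Measure Y) [IsProbabilityMeasure μ]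
  (F : Y × T → ℂ), Integrable F (μ.prod tm) → ∀ ε : ℝ, 0 < ε → ∃ (N : ℕ) (h : ℤ → Y → ℂ),
  (∀ k, BM (h k)) ∧
  ∫ p, ‖F p - ∑ k ∈ Finset.Icc (-(N : ℤ)) N, h k p.1 * fourier k p.2‖ ∂(μ.prod tm) ≤ ε

/-- V4: the pointwise ergodic theorem in `L¹` on the product. -/
def ConvXStmt : Prop := ∀ (Y : Type) [MeasurableSpace Y] [MulAction G Y] (μ : Measure Y)
  (c : G → Y → ℤ), Sys μ c → ∀ a : ℝ, Irrational a → ∀ F : Y × T → ℝ,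
  Integrable F (μ.prod tm) → ∀ᵐ p ∂(μ.prod tm),
  Tendsto (fun x => ∫ g, F (g • p.1, p.2 + c g p.1 • (a : T)) ∂(bm x)) atTop
    (𝓝 (∫ p, F p ∂(μ.prod tm)))

/-- V5: no spectral gap on the product. -/
def NoGapXStmt : Prop := ∀ (Y : Type) [MeasurableSpace Y] [MulAction G Y] (μ : Measure Y)
  (c : G → Y → ℤ), Sys μ c → ∀ a : ℝ, Irrational a → ∀ (R ε : ℝ), 0 < ε →
  ∃ F : Y × T → ℝ, MemLp F 2 (μ.prod tm) ∧ ∫ p, F p ∂(μ.prod tm) = 0 ∧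
    0 < ∫ p, F p ^ 2 ∂(μ.prod tm) ∧ ∀ g ∈ Bx R,
    ∫ p, (F (g • p.1, p.2 + c g p.1 • (a : T)) - F p) ^ 2 ∂(μ.prod tm) ≤
      ε * ∫ p, F p ^ 2 ∂(μ.prod tm)

/-! ### The lattice -/

/-- a lattice with a strict bounded fundamental set and a quasi-homomorphism -/
structure LatD (Γ : Subgroup G) (σ : G → ℤ) (F : Set G) : Prop where
  F_meas : MeasurableSet F
  F_bdd : ∃ R : ℝ, F ⊆ Bx R
  F_fund : ∀ g : G, ∃! γ : Γ, g * (γ : G) ∈ F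
  fin : ∀ R : ℝ, {γ : G | γ ∈ Γ ∧ hh γ ≤ R}.Finite
  neg : (-1 : G) ∈ Γ
  σ_meas : Measurable σ
  σ_bdd : ∀ R : ℝ, ∃ C : ℤ, ∀ g ∈ Bx R, |σ g| ≤ C
  σ_mul : ∀ g γ : G, γ ∈ Γ → σ (g * γ) = σ g + σ γ
  nontriv : ∃ γ ∈ Γ, σ γ ≠ 0

/-- L0: the system attached to a lattice. -/
def LatSysStmt : Prop := ∀ (Γ : Subgroup G) (σ : G → ℤ) (F : Set G), LatD Γ σ F →
  ∃ (Y : Type) (_ : MeasurableSpace Y) (_ : StandardBorelSpace Y) (_ : MulAction G Y)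
    (μ : Measure Y) (c : G → Y → ℤ), Sys μ c

/-- the norm one units of the quaternion order `ℤ⟨1, I, j, k⟩`, `j² = k² = 3`, `jk = -kj = I` -/
def GamSet : Set G := {g | ∃ a b c d : ℤ, a ^ 2 + 9 * b ^ 2 - 3 * c ^ 2 - 3 * d ^ 2 = 1 ∧
  g.1 0 0 = a + c * √3 ∧ g.1 0 1 = 3 * b + d * √3 ∧ g.1 1 0 = -3 * b + d * √3 ∧
  g.1 1 1 = a - c * √3}

/-- L1 -/
def GamGroupStmt : Prop := ∃ Γ : Subgroup G, (Γ : Set G) = GamSet ∧ (-1 : G) ∈ Γ ∧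
  ∀ R : ℝ, {γ : G | γ ∈ Γ ∧ hh γ ≤ R}.Finite

/-- L2a: short vectors. -/
def ShortStmt : Prop := ∃ R : ℝ, ∀ g : G, ∃ a b c d : ℤ, (a ≠ 0 ∨ b ≠ 0 ∨ c ≠ 0 ∨ d ≠ 0) ∧
  ∀ M : Matrix (Fin 2) (Fin 2) ℝ,
    M = g.1 * !![(a : ℝ) + c * √3, 3 * b + d * √3; -3 * b + d * √3, a - c * √3] →
    M 0 0 ^ 2 + M 0 1 ^ 2 + M 1 0 ^ 2 + M 1 1 ^ 2 ≤ R

/-- L2: cocompactness. -/
def CocompStmt : Prop := ∃ R : ℝ, ∀ g : G, ∃ γ ∈ GamSet, hh (g * γ) ≤ R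

/-- L3: strict fundamental sets. -/
def FundStmt : Prop := ∀ Γ : Subgroup G, (∀ R : ℝ, {γ : G | γ ∈ Γ ∧ hh γ ≤ R}.Finite) →
  (∃ R : ℝ, ∀ g : G, ∃ γ ∈ Γ, hh (g * γ) ≤ R) →
  ∃ F : Set G, MeasurableSet F ∧ (∃ R : ℝ, F ⊆ Bx R) ∧ ∀ g : G, ∃! γ : Γ, g * (γ : G) ∈ F

/-- integral points `(p,q,r)` with `q² + r² = 1 + 3p²`, `q ≡ 1 mod 6` -/
def Vset : Set (ℤ × ℤ × ℤ) := {v | v.2.1 ^ 2 + v.2.2 ^ 2 = 1 + 3 * v.1 ^ 2 ∧ v.2.1 % 6 = 1}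

/-- the position of `g` with respect to the wall `v` -/
def Lam (g : G) (v : ℤ × ℤ × ℤ) : ℝ :=
  (3 * v.1 + v.2.2 * √3) * (g.1 0 0 ^ 2 + g.1 1 0 ^ 2)
    - 2 * v.2.1 * √3 * (g.1 0 0 * g.1 0 1 + g.1 1 0 * g.1 1 1)
    + (3 * v.1 - v.2.2 * √3) * (g.1 0 1 ^ 2 + g.1 1 1 ^ 2)

open Classical in
/-- contribution of one wall -/
def wal (g : G) (v : ℤ × ℤ × ℤ) : ℤ :=
  (if v ∈ Vset ∧ 0 < Lam g v then 1 else 0) - (if v ∈ Vset ∧ 0 < v.1 then 1 else 0)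

/-- the sheet function -/
def sg (g : G) : ℤ := ∑ᶠ v : ℤ × ℤ × ℤ, wal g v

/-- L4: the walls which contribute. -/
def WalStmt : Prop := ∀ (g : G) (v : ℤ × ℤ × ℤ), v ∈ Vset → hh g ^ 2 ≤ 3 * (v.1 : ℝ) ^ 2 →
  wal g v = 0

/-- L5: measurability and boundedness of the sheet function. -/
def SgMeasStmt : Prop := Measurable sg ∧ ∀ R : ℝ, ∃ C : ℤ, ∀ g ∈ Bx R, |sg g| ≤ C

/-- L6: equivariance. -/
def SgMulStmt : Prop := ∀ g γ : G, γ ∈ GamSet → sg (g * γ) = sg g + sg γ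

/-- L7: nontriviality. -/
def SgNeStmt : Prop := ∃ γ ∈ GamSet, sg γ ≠ 0

/-- L8: there is a system. -/
def SysStmt : Prop := ∃ (Y : Type) (_ : MeasurableSpace Y) (_ : StandardBorelSpace Y)
  (_ : MulAction G Y) (μ : Measure Y) (c : G → Y → ℤ), Sys μ c

/-! ### Final assembly -/

/-- Z1: the result for `SL(2,ℝ)`. -/
def SLFinalStmt : Prop := ∃ (X : Type) (_ : MeasurableSpace X) (_ : StandardBorelSpace X)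
  (_ : MulAction G X) (μ : Measure X), IsProbabilityMeasure μ ∧
  Measurable (fun p : G × X => p.1 • p.2) ∧
  (∀ g : G, MeasurePreserving (fun x : X => g • x) μ μ) ∧ (∀ x : X, (-1 : G) • x = x) ∧
  (∀ (R ε : ℝ), 0 < ε → ∃ F : X → ℝ, MemLp F 2 μ ∧ ∫ p, F p ∂μ = 0 ∧ 0 < ∫ p, F p ^ 2 ∂μ ∧
    ∀ g ∈ Bx R, ∫ p, (F (g • p) - F p) ^ 2 ∂μ ≤ ε * ∫ p, F p ^ 2 ∂μ) ∧
  (∀ F : X → ℝ, Integrable F μ → ∀ᵐ p ∂μ,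
    Tendsto (fun x => ∫ g, F (g • p) ∂(bm x)) atTop (𝓝 (∫ p, F p ∂μ)))

/-- `PSL(2,ℝ)` -/
abbrev PSL := Matrix.ProjectiveSpecialLinearGroup (Fin 2) ℝ

instance instMSP : MeasurableSpace PSL := borel PSL
instance instBSP : BorelSpace PSL := ⟨rfl⟩

/-- the action of `SL(2,ℝ)` on the upper half plane, as maps -/
def ballP (p₀ : UpperHalfPlane) (r : ℝ) : Set PSL :=
  {x | ∃ g : Matrix.SpecialLinearGroup (Fin 2) ℝ, (QuotientGroup.mk g : PSL) = x ∧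
    dist p₀ (g • p₀) ≤ r}

/-- Z2: the final result. -/
def FinalStmt : Prop := ∃ (X : Type) (_ : MeasurableSpace X) (_ : StandardBorelSpace X)
  (_ : MulAction PSL X) (μ : Measure X), IsProbabilityMeasure μ ∧
  Measurable (fun p : PSL × X => p.1 • p.2) ∧
  (∀ g : PSL, MeasurePreserving (fun x : X => g • x) μ μ) ∧
  -- ergodicity
  (∀ A : Set X, MeasurableSet A → (∀ g : PSL, (fun x : X => g • x) ⁻¹' A =ᵐ[μ] A) →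
    μ A = 0 ∨ μ A = 1) ∧
  -- no spectral gap
  (∀ (Q : Set PSL), IsCompact Q → ∀ ε : ℝ, 0 < ε → ∃ F : X → ℝ, MemLp F 2 μ ∧
    ∫ x, F x ∂μ = 0 ∧ 0 < eLpNorm F 2 μ ∧
    ∀ g ∈ Q, eLpNorm (fun x => F (g⁻¹ • x) - F x) 2 μ ≤ ENNReal.ofReal ε * eLpNorm F 2 μ) ∧
  -- the pointwise ergodic theorem in L¹ for ball averages
  (∀ (m : Measure PSL) [m.IsHaarMeasure] (p₀ : UpperHalfPlane) (F : X → ℝ), Integrable F μ →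
    ∀ᵐ x ∂μ, Tendsto (fun r : ℝ => (m.real (ballP p₀ r))⁻¹ * ∫ g in ballP p₀ r, F (g • x) ∂m)
      atTop (𝓝 (∫ x, F x ∂μ)))

end

end Pool.Agent.W314.BA
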